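import Pool.Agent.Helper51.MF.Vol

set_option autoImplicit false

/-!
# MP_743d72_nt : covolumes of rational subspaces
-/

namespace Pool.Agent.Helper53.MF

open Submodule Module Set

noncomputable section

section LAT

variable {E : Type*} [NormedAddCommGroup E] [InnerProductSpace ℝ E]
variable {F : Type*} [NormedAddCommGroup F] [InnerProductSpace ℝ F]
variable {N : ℕ}

/-! ### integer points of a rational subspace -/

lemma toQ_add (x y : Fin N → ℤ) : toQ (x + y) = toQ x + toQ y := by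
  ext i; simp [toQ]

lemma toQ_zero : toQ (0 : Fin N → ℤ) = 0 := by
  ext i; simp [toQ]

lemma toQ_smul (c : ℤ) (x : Fin N → ℤ) : toQ (c • x) = (c : ℚ) • toQ x := by
  ext i; simp [toQ]

lemma toQ_injective : Function.Injective (toQ : (Fin N → ℤ) → (Fin N → ℚ)) := by
  intro x y h
  ext i
  have := congrFun h i
  simpa [toQ] using this

lemma toQ_sum {ι : Type*} (s : Finset ι) (c : ι → ℤ) (y : ι → Fin N → ℤ) :
    toQ (∑ i ∈ s, c i • y i) = ∑ i ∈ s, (c i : ℚ) • toQ (y i) := by
  ext k; simp [toQ, Finset.sum_apply]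

lemma toR_sum {ι : Type*} (s : Finset ι) (c : ι → ℤ) (y : ι → Fin N → ℤ) :
    toR (∑ i ∈ s, c i • y i) = ∑ i ∈ s, (c i : ℝ) • toR (y i) := by
  ext k; simp [toR, Finset.sum_apply]

/-- the lattice of integer points of a rational subspace -/
def intPts (W : Submodule ℚ (Fin N → ℚ)) : Submodule ℤ (Fin N → ℤ) where
  carrier := {x | toQ x ∈ W}
  add_mem' {x y} hx hy := by
    show toQ (x + y) ∈ W
    rw [toQ_add]; exact W.add_mem hx hy
  zero_mem' := by
    show toQ 0 ∈ W
    rw [toQ_zero]; exact W.zero_mem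
  smul_mem' c x hx := by
    show toQ (c • x) ∈ W
    rw [toQ_smul]; exact W.smul_mem _ hx

lemma mem_intPts {W : Submodule ℚ (Fin N → ℚ)} {x : Fin N → ℤ} : x ∈ intPts W ↔ toQ x ∈ W :=
  Iff.rfl

/-- every rational vector has a positive integer multiple with integer coordinates -/
lemma exists_mul_int (w : Fin N → ℚ) : ∃ d : ℤ, d ≠ 0 ∧ ∃ x : Fin N → ℤ, toQ x = (d : ℚ) • w := by
  classical
  refine ⟨∏ i, ((w i).den : ℤ), ?_, fun i => (∏ j ∈ Finset.univ.erase i, ((w j).den : ℤ)) * (w i).num, ?_⟩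
  · exact Finset.prod_ne_zero_iff.2 (fun i _ => by exact_mod_cast (w i).den_nz)
  · ext i
    simp only [toQ, Pi.smul_apply, smul_eq_mul]
    have h := Finset.mul_prod_erase Finset.univ (fun j => ((w j).den : ℤ)) (Finset.mem_univ i)
    rw [← h]
    push_cast
    have h2 : ((w i).num : ℚ) = (w i).den * w i := by
      rw [mul_comm]; exact (Rat.mul_den_eq_num (w i)).symm
    rw [h2]; ring

/-- `y` is a `ℤ`-basis of the integer points of `W` -/
structure IsZB {ι : Type*} (W : Submodule ℚ (Fin N → ℚ)) (y : ι → Fin N → ℤ) : Prop where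
  li : LinearIndependent ℤ y
  sp : span ℤ (range y) = intPts W

lemma liQ {ι : Type*} {y : ι → Fin N → ℤ} (h : LinearIndependent ℤ y) :
    LinearIndependent ℚ (fun i => toQ (y i)) := by
  have := (linearIndependent_algebraMap_comp_iff (R := ℤ) (S := ℚ) (v := y)).2 h
  exact this

lemma liR {ι : Type*} {y : ι → Fin N → ℤ} (h : LinearIndependent ℤ y) :
    LinearIndependent ℝ (fun i => toR (y i)) := by
  have := (linearIndependent_algebraMap_comp_iff (R := ℤ) (S := ℝ) (v := y)).2 h
  exact this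

lemma liZ_of_liQ {ι : Type*} {y : ι → Fin N → ℤ} (h : LinearIndependent ℚ (fun i => toQ (y i))) :
    LinearIndependent ℤ y :=
  (linearIndependent_algebraMap_comp_iff (R := ℤ) (S := ℚ) (v := y)).1 h

lemma IsZB.qspan_eq {ι : Type*} {W : Submodule ℚ (Fin N → ℚ)} {y : ι → Fin N → ℤ}
    (h : IsZB W y) : qspan y = W := by
  apply le_antisymm
  · rw [qspan, span_le]
    rintro _ ⟨i, rfl⟩
    have : y i ∈ intPts W := by rw [← h.sp]; exact subset_span ⟨i, rfl⟩
    exact this
  · intro w hw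
    obtain ⟨d, hd, x, hx⟩ := exists_mul_int w
    have hxW : x ∈ intPts W := by
      rw [mem_intPts, hx]; exact W.smul_mem _ hw
    rw [← h.sp] at hxW
    have h2 : toQ x ∈ qspan y := by
      have : span ℤ (range y) ≤ intPts (qspan y) := by
        rw [span_le]
        rintro _ ⟨i, rfl⟩
        exact subset_span ⟨i, rfl⟩
      exact this hxW
    rw [hx] at h2
    have hd' : (d : ℚ) ≠ 0 := by exact_mod_cast hd
    have := (qspan y).smul_mem ((d : ℚ)⁻¹) h2
    rwa [smul_smul, inv_mul_cancel₀ hd', one_smul] at this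

lemma IsZB.card_eq {ι : Type*} [Fintype ι] {W : Submodule ℚ (Fin N → ℚ)} {y : ι → Fin N → ℤ}
    (h : IsZB W y) : Fintype.card ι = finrank ℚ W := by
  rw [← h.qspan_eq, qspan]
  exact (finrank_span_eq_card (liQ h.li)).symm

/-- a `ℤ`-basis of the integer points of `U` extends to one of `W ≥ U` -/
lemma IsZB.extend {ι : Type*} {U W : Submodule ℚ (Fin N → ℚ)} (hUW : U ≤ W)
    {y : ι → Fin N → ℤ} (h : IsZB U y) :
    ∃ (k : ℕ) (v : Fin k → Fin N → ℤ), IsZB W (Sum.elim y v) := by
  classical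
  -- the integer points of `U` inside those of `W`
  set V := intPts W with hV
  set S : Submodule ℤ V := (intPts U).comap V.subtype with hS
  have hle : intPts U ≤ V := fun x hx => hUW hx
  have hyU : ∀ i, y i ∈ intPts U := fun i => by rw [← h.sp]; exact subset_span ⟨i, rfl⟩
  have htf : IsTorsionFree ℤ (V ⧸ S) := by
    rw [isTorsionFree_iff_smul_eq_zero]
    intro r m hm
    obtain ⟨v, rfl⟩ := Submodule.Quotient.mk_surjective S m
    by_cases hr : r = 0
    · left; exact hr
    right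
    rw [← Submodule.Quotient.mk_smul, Submodule.Quotient.mk_eq_zero] at hm
    rw [Submodule.Quotient.mk_eq_zero]
    have h1 : toQ (r • (v : Fin N → ℤ)) ∈ U := hm
    rw [toQ_smul] at h1
    have h2 := U.smul_mem ((r : ℚ)⁻¹) h1
    have hr' : (r : ℚ) ≠ 0 := by exact_mod_cast hr
    rw [smul_smul, inv_mul_cancel₀ hr', one_smul] at h2
    exact h2
  have hfree : Module.Free ℤ (V ⧸ S) := inferInstance
  let yS : ι → S := fun i => ⟨⟨y i, hle (hyU i)⟩, hyU i⟩
  have liS : LinearIndependent ℤ yS := by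
    have : LinearIndependent ℤ ((V.subtype ∘ₗ S.subtype) ∘ yS) := h.li
    exact LinearIndependent.of_comp _ this
  have spS : ⊤ ≤ span ℤ (range yS) := by
    rintro ⟨⟨x, hxV⟩, hxU⟩ -
    have hx : x ∈ span ℤ (range y) := by rw [h.sp]; exact hxU
    have hx2 : x ∈ (span ℤ (range yS)).map (V.subtype ∘ₗ S.subtype) := by
      rw [Submodule.map_span, ← range_comp]
      exact hx
    obtain ⟨z, hz, hzx⟩ := hx2
    have : z = ⟨⟨x, hxV⟩, hxU⟩ := by
      apply Subtype.ext; apply Subtype.ext; exact hzx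
    rw [← this]; exact hz
  let bW : Basis ι ℤ S := Basis.mk liS spS
  let bQ := Module.finBasis ℤ (V ⧸ S)
  let b := Basis.sumQuot bW bQ
  refine ⟨_, fun j => (b (Sum.inr j) : Fin N → ℤ), ?_⟩
  have hb : (fun i => (b i : Fin N → ℤ)) = Sum.elim y (fun j => (b (Sum.inr j) : Fin N → ℤ)) := by
    funext i
    rcases i with i | j
    · show (b (Sum.inl i) : Fin N → ℤ) = y i
      have : b (Sum.inl i) = bW i := Basis.sumQuot_inl bW bQ i
      rw [this]
      simp [bW, yS]
    · rfl
  rw [← hb]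
  refine ⟨b.linearIndependent.map' V.subtype (Submodule.ker_subtype V), ?_⟩
  have h3 : range (fun i => (b i : Fin N → ℤ)) = V.subtype '' range b := by
    rw [← range_comp]; rfl
  rw [h3, ← Submodule.map_span, b.span_eq, Submodule.map_top, Submodule.range_subtype]

lemma isZB_bot : IsZB (⊥ : Submodule ℚ (Fin N → ℚ)) (Fin.elim0 : Fin 0 → Fin N → ℤ) := by
  refine ⟨linearIndependent_empty_type, ?_⟩
  have : intPts (⊥ : Submodule ℚ (Fin N → ℚ)) = ⊥ := by
    rw [eq_bot_iff]
    intro x hx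
    have h1 : toQ x = toQ 0 := by rw [toQ_zero]; exact hx
    exact toQ_injective h1
  rw [this, range_eq_empty, span_empty]

lemma IsZB.reindex {ι κ : Type*} {W : Submodule ℚ (Fin N → ℚ)} {y : ι → Fin N → ℤ}
    (h : IsZB W y) (e : κ ≃ ι) : IsZB W (fun k => y (e k)) := by
  refine ⟨h.li.comp _ e.injective, ?_⟩
  rw [← h.sp]
  congr 1
  exact e.surjective.range_comp y

lemma exists_isZB (W : Submodule ℚ (Fin N → ℚ)) :
    ∃ y : Fin (finrank ℚ W) → Fin N → ℤ, IsZB W y := by
  obtain ⟨k, v, hv⟩ := (isZB_bot (N := N)).extend (bot_le : ⊥ ≤ W)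
  have hc := hv.card_eq
  have e : Fin (finrank ℚ W) ≃ Fin 0 ⊕ Fin k := Fintype.equivOfCardEq (by rw [hc]; simp)
  exact ⟨_, hv.reindex e⟩

/-- the covolume is attained at any `ℤ`-basis -/
lemma IsZB.vol_le {ι κ : Type*} [Fintype ι] [DecidableEq ι] [Fintype κ] [DecidableEq κ]
    {W : Submodule ℚ (Fin N → ℚ)} {y : ι → Fin N → ℤ} (h : IsZB W y)
    (L : (Fin N → ℝ) →ₗ[ℝ] E) {y' : κ → Fin N → ℤ} (hy' : qspan y' = W)
    (hc : Fintype.card κ = finrank ℚ W) :
    vol (fun i => L (toR (y i))) ≤ vol (fun k => L (toR (y' k))) := by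
  have e : κ ≃ ι := Fintype.equivOfCardEq (by rw [hc, h.card_eq])
  -- coordinates
  have hmem : ∀ i, y' (e.symm i) ∈ span ℤ (range y) := by
    intro i
    rw [h.sp, mem_intPts, ← hy']
    exact subset_span ⟨_, rfl⟩
  have hA : ∀ i, ∃ c : ι → ℤ, ∑ j, c j • y j = y' (e.symm i) := by
    intro i
    exact (Submodule.mem_span_range_iff_exists_fun ℤ).1 (hmem i)
  choose A hA using hA
  set M : Matrix ι ι ℤ := Matrix.of A with hM
  have h1 : vol (fun k => L (toR (y' k))) = vol (fun i => L (toR (y' (e.symm i)))) :=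
    (vol_reindex e.symm (fun k => L (toR (y' k)))).symm
  have h2 : (fun i => L (toR (y' (e.symm i)))) =
      fun i => ∑ j, (M.map (Int.castRingHom ℝ)) i j • L (toR (y j)) := by
    funext i
    rw [← hA i, toR_sum, map_sum]
    apply Finset.sum_congr rfl
    intro j _
    rw [map_smul]; rfl
  have hmd : (M.map (Int.castRingHom ℝ)).det = (Int.castRingHom ℝ) M.det :=
    ((Int.castRingHom ℝ).map_det M).symm
  rw [h1, h2, vol_matrix, hmd]
  -- the determinant is nonzero
  have hdet : M.det ≠ 0 := by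
    intro h0
    -- a nontrivial relation
    obtain ⟨c, hc0, hc1⟩ := (Matrix.exists_vecMul_eq_zero_iff (M := M)).2 h0
    have li' : LinearIndependent ℤ y' := by
      apply liZ_of_liQ
      rw [linearIndependent_iff_card_eq_finrank_span, hc, ← hy']
      rfl
    have li2 := li'.comp _ e.symm.injective
    apply hc0
    rw [Fintype.linearIndependent_iff] at li2
    have hz : ∑ i, c i • (y' ∘ e.symm) i = 0 := by
      have : ∀ i, (y' ∘ e.symm) i = ∑ j, A i j • y j := fun i => (hA i).symm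
      simp only [this, Finset.smul_sum, smul_smul]
      rw [Finset.sum_comm]
      apply Finset.sum_eq_zero
      intro j _
      rw [← Finset.sum_smul]
      have h5 : (Matrix.vecMul c M) j = 0 := by rw [hc1]; rfl
      have h6 : (Matrix.vecMul c M) j = ∑ i, c i * A i j := rfl
      rw [← h6, h5, zero_smul]
    funext i
    exact li2 c hz i
  have h3 : (1 : ℝ) ≤ |(Int.castRingHom ℝ) M.det| := by
    have : (1 : ℤ) ≤ |M.det| := Int.one_le_abs hdet
    have h4 : ((1 : ℤ) : ℝ) ≤ ((|M.det| : ℤ) : ℝ) := by exact_mod_cast this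
    rw [Int.cast_abs] at h4
    simpa using h4
  calc vol (fun i => L (toR (y i))) = 1 * vol (fun i => L (toR (y i))) := (one_mul _).symm
    _ ≤ _ := mul_le_mul_of_nonneg_right h3 (vol_nonneg _)

lemma covol_set_bdd (L : (Fin N → ℝ) →ₗ[ℝ] E) (W : Submodule ℚ (Fin N → ℚ)) :
    BddBelow {a : ℝ | ∃ y : Fin (finrank ℚ W) → (Fin N → ℤ), qspan y = W ∧
      a = vol (fun i => L (toR (y i)))} :=
  ⟨0, by rintro _ ⟨y, -, rfl⟩; exact vol_nonneg _⟩

lemma IsZB.covol_eq {ι : Type*} [Fintype ι] [DecidableEq ι]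
    {W : Submodule ℚ (Fin N → ℚ)} {y : ι → Fin N → ℤ} (h : IsZB W y)
    (L : (Fin N → ℝ) →ₗ[ℝ] E) : covol L W = vol (fun i => L (toR (y i))) := by
  have e : Fin (finrank ℚ W) ≃ ι := Fintype.equivOfCardEq (by rw [h.card_eq]; simp)
  apply le_antisymm
  · apply csInf_le (covol_set_bdd L W)
    refine ⟨fun k => y (e k), (h.reindex e).qspan_eq, ?_⟩
    exact (vol_reindex e (fun i => L (toR (y i)))).symm
  · apply le_csInf
    · exact ⟨_, fun k => y (e k), (h.reindex e).qspan_eq, rfl⟩
    · rintro _ ⟨y', hy', rfl⟩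
      exact h.vol_le L hy' (by simp)

lemma IsZB.liL {ι : Type*} {W : Submodule ℚ (Fin N → ℚ)} {y : ι → Fin N → ℤ} (h : IsZB W y)
    {L : (Fin N → ℝ) →ₗ[ℝ] E} (hL : Function.Injective L) :
    LinearIndependent ℝ (fun i => L (toR (y i))) :=
  (liR h.li).map' L (LinearMap.ker_eq_bot.2 hL)

theorem covol_pos {L : (Fin N → ℝ) →ₗ[ℝ] E} (hL : Function.Injective L)
    (W : Submodule ℚ (Fin N → ℚ)) : 0 < covol L W := by
  obtain ⟨y, hy⟩ := exists_isZB W
  rw [hy.covol_eq L]
  exact vol_pos (hy.liL hL)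

theorem covol_le {L : (Fin N → ℝ) →ₗ[ℝ] E} (hL : Function.Injective L)
    {W : Submodule ℚ (Fin N → ℚ)} {ι : Type*} [Fintype ι] [DecidableEq ι]
    (y : ι → Fin N → ℤ) (hy : qspan y = W) (hc : Fintype.card ι = finrank ℚ W) :
    covol L W ≤ vol (fun i => L (toR (y i))) := by
  obtain ⟨y', hy'⟩ := exists_isZB W
  rw [hy'.covol_eq L]
  exact hy'.vol_le L hy hc

theorem covol_bot {L : (Fin N → ℝ) →ₗ[ℝ] E} (hL : Function.Injective L) :
    covol L ⊥ = 1 := by
  rw [(isZB_bot (N := N)).covol_eq L]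
  exact vol_isEmpty _

lemma qspan_sum {ι κ : Type*} (y : ι → Fin N → ℤ) (v : κ → Fin N → ℤ) :
    qspan (Sum.elim y v) = qspan y ⊔ qspan v := by
  rw [qspan, qspan, qspan, ← span_union]
  congr 1
  ext x
  simp [mem_range, Sum.exists]

/-- submodularity -/
theorem covol_submod {L : (Fin N → ℝ) →ₗ[ℝ] E} (hL : Function.Injective L)
    (U W : Submodule ℚ (Fin N → ℚ)) :
    covol L (U ⊓ W) * covol L (U ⊔ W) ≤ covol L U * covol L W := by
  obtain ⟨y, hy⟩ := exists_isZB (U ⊓ W)
  obtain ⟨k, v, hv⟩ := hy.extend (inf_le_left : U ⊓ W ≤ U)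
  obtain ⟨l, w, hw⟩ := hy.extend (inf_le_right : U ⊓ W ≤ W)
  have hq : qspan (Sum.elim (Sum.elim y v) w) = U ⊔ W := by
    have h1 := hv.qspan_eq
    have h2 := hw.qspan_eq
    rw [qspan_sum] at h2
    rw [qspan_sum, h1]
    apply le_antisymm
    · apply sup_le_sup_left
      rw [← h2]; exact le_sup_right
    · apply sup_le le_sup_left
      rw [← h2]
      apply sup_le _ le_sup_right
      rw [hy.qspan_eq]
      exact le_sup_of_le_left inf_le_left
  have hcard : Fintype.card ((Fin (finrank ℚ (U ⊓ W : Submodule ℚ (Fin N → ℚ))) ⊕ Fin k) ⊕ Fin l) =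
      finrank ℚ (U ⊔ W : Submodule ℚ (Fin N → ℚ)) := by
    have h1 := hv.card_eq
    have h2 := hw.card_eq
    have h3 := Submodule.finrank_sup_add_finrank_inf_eq U W
    simp only [Fintype.card_sum, Fintype.card_fin] at h1 h2 ⊢
    omega
  have h4 := covol_le hL _ hq hcard
  rw [hy.covol_eq L, hv.covol_eq L, hw.covol_eq L]
  have e1 : (fun i => L (toR (Sum.elim (Sum.elim y v) w i))) =
      Sum.elim (Sum.elim (fun i => L (toR (y i))) (fun i => L (toR (v i))))
        (fun i => L (toR (w i))) := by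
    funext i; rcases i with (i | i) | i <;> rfl
  have e2 : (fun i => L (toR (Sum.elim y v i))) =
      Sum.elim (fun i => L (toR (y i))) (fun i => L (toR (v i))) := by
    funext i; rcases i with i | i <;> rfl
  have e3 : (fun i => L (toR (Sum.elim y w i))) =
      Sum.elim (fun i => L (toR (y i))) (fun i => L (toR (w i))) := by
    funext i; rcases i with i | i <;> rfl
  rw [e1] at h4
  rw [e2, e3]
  have h5 := vol_fischer (fun i => L (toR (y i))) (fun i => L (toR (v i))) (fun i => L (toR (w i)))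
  calc _ ≤ vol (fun i => L (toR (y i))) * vol (Sum.elim (Sum.elim (fun i => L (toR (y i)))
        (fun i => L (toR (v i)))) (fun i => L (toR (w i)))) :=
        mul_le_mul_of_nonneg_left h4 (vol_nonneg _)
    _ ≤ _ := by rw [mul_comm]; exact h5

/-- adjoining an integer vector -/
theorem covol_adjoin {L : (Fin N → ℝ) →ₗ[ℝ] E} (hL : Function.Injective L)
    (U : Submodule ℚ (Fin N → ℚ)) {x : Fin N → ℤ} (hx : toQ x ∉ U) :
    covol L (U ⊔ span ℚ {toQ x}) ≤ covol L U * ‖L (toR x)‖ := by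
  obtain ⟨y, hy⟩ := exists_isZB U
  have hq : qspan (Sum.elim y (fun _ : Unit => x)) = U ⊔ span ℚ {toQ x} := by
    rw [qspan_sum, hy.qspan_eq]
    congr 1
    rw [qspan]
    congr 1
    ext z; simp [mem_range, eq_comm]
  have hcard : Fintype.card (Fin (finrank ℚ U) ⊕ Unit) =
      finrank ℚ (U ⊔ span ℚ {toQ x} : Submodule ℚ (Fin N → ℚ)) := by
    have hx0 : toQ x ≠ 0 := fun h => hx (h ▸ U.zero_mem)
    have h1 := Submodule.finrank_sup_add_finrank_inf_eq U (span ℚ {toQ x})
    have h2 : U ⊓ span ℚ {toQ x} = ⊥ := by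
      rw [eq_bot_iff]
      rintro z ⟨hz1, hz2⟩
      obtain ⟨c, rfl⟩ := mem_span_singleton.1 hz2
      by_cases hc : c = 0
      · rw [hc, zero_smul]; exact Submodule.zero_mem _
      · exfalso
        apply hx
        have := U.smul_mem c⁻¹ hz1
        rwa [smul_smul, inv_mul_cancel₀ hc, one_smul] at this
    rw [h2, finrank_bot, finrank_span_singleton hx0] at h1
    simp only [Fintype.card_sum, Fintype.card_fin, Fintype.card_unit]
    omega
  have h4 := covol_le hL _ hq hcard
  have e2 : (fun i => L (toR (Sum.elim y (fun _ : Unit => x) i))) =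
      Sum.elim (fun i => L (toR (y i))) (fun _ : Unit => L (toR x)) := by
    funext i; rcases i with i | i <;> rfl
  rw [e2] at h4
  rw [hy.covol_eq L]
  exact h4.trans (vol_sum_unit_le _ _)

lemma finrank_le_N (W : Submodule ℚ (Fin N → ℚ)) : finrank ℚ W ≤ N := by
  have := Submodule.finrank_le W
  simpa using this

lemma norm_comb {L : (Fin N → ℝ) →ₗ[ℝ] E} {L' : (Fin N → ℝ) →ₗ[ℝ] F} {K : ℝ}
    (h : ∀ z, ‖L z‖ ≤ K * ‖L' z‖) {ι : Type*} [Fintype ι] (x : ι → Fin N → ℝ) (c : ι → ℝ) :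
    ‖∑ i, c i • L (x i)‖ ≤ K * ‖∑ i, c i • L' (x i)‖ := by
  have := h (∑ i, c i • x i)
  simpa [map_sum, map_smul] using this

/-- monotonicity -/
theorem covol_mono {L : (Fin N → ℝ) →ₗ[ℝ] E} {L' : (Fin N → ℝ) →ₗ[ℝ] F}
    (hL : Function.Injective L) (hL' : Function.Injective L') {K : ℝ} (hK : 1 ≤ K)
    (h : ∀ z, ‖L z‖ ≤ K * ‖L' z‖) (W : Submodule ℚ (Fin N → ℚ)) :
    covol L W ≤ K ^ N * covol L' W := by
  obtain ⟨y, hy⟩ := exists_isZB W
  rw [hy.covol_eq L, hy.covol_eq L']
  have h1 := vol_le_pow_mul (fun i => L (toR (y i))) (fun i => L' (toR (y i)))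
    (zero_le_one.trans hK) (norm_comb h _)
  refine h1.trans (mul_le_mul_of_nonneg_right ?_ (vol_nonneg _))
  apply pow_le_pow_right₀ hK
  rw [Fintype.card_fin]; exact finrank_le_N W

/-- replacing one vector of a `ℤ`-basis -/
lemma IsZB.vol_update {ι : Type*} [Fintype ι] [DecidableEq ι] {W : Submodule ℚ (Fin N → ℚ)}
    {y : ι → Fin N → ℤ} (hy : IsZB W y) {x : Fin N → ℤ} {c : ι → ℤ}
    (hc : ∑ i, c i • y i = x) (i₀ : ι) (T : (Fin N → ℝ) →ₗ[ℝ] E) :
    vol (fun i => T (toR (Function.update y i₀ x i))) = |(c i₀ : ℝ)| * covol T W := by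
  set A : Matrix ι ι ℝ := (1 : Matrix _ _ ℝ).updateRow i₀ (fun j => (c j : ℝ)) with hA
  have hdet : A.det = (c i₀ : ℝ) := by
    rw [hA, ← Matrix.cramer_transpose_apply, Matrix.transpose_one, Matrix.cramer_one]
    rfl
  rw [hy.covol_eq T, ← hdet, ← vol_matrix]
  congr 1
  funext i
  by_cases hi : i = i₀
  · subst hi
    rw [Function.update_self, hA, ← hc, toR_sum, map_sum]
    apply Finset.sum_congr rfl
    intro j _
    rw [map_smul, Matrix.updateRow_self]
  · rw [Function.update_of_ne hi, hA]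
    simp only [Matrix.updateRow_ne hi, Matrix.one_apply, ite_smul, one_smul, zero_smul,
      Finset.sum_ite_eq, Finset.mem_univ, if_true]

/-- ratio of the covolumes in two norms, compared with the ratio of the norms of a vector -/
theorem covol_ratio {L : (Fin N → ℝ) →ₗ[ℝ] E} {L' : (Fin N → ℝ) →ₗ[ℝ] F}
    (hL : Function.Injective L) (hL' : Function.Injective L') {K : ℝ} (hK : 1 ≤ K)
    (h : ∀ z, ‖L z‖ ≤ K * ‖L' z‖) {W : Submodule ℚ (Fin N → ℚ)} {x : Fin N → ℤ} (hx : x ≠ 0)
    (hxW : toQ x ∈ W) :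
    covol L W * ‖L' (toR x)‖ ≤ K ^ N * ‖L (toR x)‖ * covol L' W := by
  obtain ⟨y, hy⟩ := exists_isZB W
  have hxm : x ∈ span ℤ (range y) := by rw [hy.sp]; exact hxW
  obtain ⟨c, hc⟩ := (Submodule.mem_span_range_iff_exists_fun ℤ).1 hxm
  have hne : ∃ i₀, c i₀ ≠ 0 := by
    by_contra hcon
    push Not at hcon
    apply hx
    rw [← hc]
    exact Finset.sum_eq_zero (fun i _ => by rw [hcon i, zero_smul])
  obtain ⟨i₀, hi₀⟩ := hne
  -- replace `y i₀` by `x`
  set z : Fin (finrank ℚ W) → Fin N → ℤ := Function.update y i₀ x with hz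
  have keyL : vol (fun i => L (toR (z i))) = |(c i₀ : ℝ)| * covol L W := hy.vol_update hc i₀ L
  have keyL' : vol (fun i => L' (toR (z i))) = |(c i₀ : ℝ)| * covol L' W := hy.vol_update hc i₀ L'
  have h1 := vol_ratio (fun i => L (toR (z i))) (fun i => L' (toR (z i)))
    (zero_le_one.trans hK) (norm_comb h _) i₀
  have hzi : z i₀ = x := by rw [hz, Function.update_self]
  rw [keyL, keyL', hzi, Fintype.card_fin] at h1
  have hcpos : 0 < |(c i₀ : ℝ)| := abs_pos.2 (by exact_mod_cast hi₀)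
  have h2 : K ^ (finrank ℚ W - 1) ≤ K ^ N :=
    pow_le_pow_right₀ hK ((Nat.sub_le _ _).trans (finrank_le_N W))
  have h3 : |(c i₀ : ℝ)| * (covol L W * ‖L' (toR x)‖) ≤
      |(c i₀ : ℝ)| * (K ^ N * ‖L (toR x)‖ * covol L' W) := by
    calc |(c i₀ : ℝ)| * (covol L W * ‖L' (toR x)‖)
        = |(c i₀ : ℝ)| * covol L W * ‖L' (toR x)‖ := by ring
      _ ≤ K ^ (finrank ℚ W - 1) * ‖L (toR x)‖ * (|(c i₀ : ℝ)| * covol L' W) := h1
      _ ≤ K ^ N * ‖L (toR x)‖ * (|(c i₀ : ℝ)| * covol L' W) := by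
          apply mul_le_mul_of_nonneg_right
          · exact mul_le_mul_of_nonneg_right h2 (norm_nonneg _)
          · exact mul_nonneg hcpos.le (covol_pos hL' W).le
      _ = _ := by ring
  exact le_of_mul_le_mul_left h3 hcpos

/-- if integer vectors `b` of norm at most `K` span the whole space, then covolumes of
subspaces are bounded below by the covolume of the whole lattice -/
theorem covol_top_le {L : (Fin N → ℝ) →ₗ[ℝ] E} (hL : Function.Injective L) {K : ℝ} (hK : 1 ≤ K)
    {ι : Type*} (b : ι → Fin N → ℤ) (hb : qspan b = ⊤) (hbK : ∀ i, ‖L (toR (b i))‖ ≤ K)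
    (W : Submodule ℚ (Fin N → ℚ)) :
    covol L ⊤ ≤ covol L W * K ^ N := by
  have main : ∀ (d : ℕ) (W : Submodule ℚ (Fin N → ℚ)), N - finrank ℚ W ≤ d →
      covol L ⊤ ≤ covol L W * K ^ d := by
    intro d
    induction d with
    | zero =>
      intro W hW
      have h1 : finrank ℚ W = finrank ℚ (Fin N → ℚ) := by
        have := finrank_le_N W
        rw [finrank_fin_fun]; omega
      have h2 : W = ⊤ := Submodule.eq_top_of_finrank_eq h1
      rw [h2, pow_zero, mul_one]
    | succ d ih =>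
      intro W hW
      by_cases hall : ∀ i, toQ (b i) ∈ W
      · have h2 : W = ⊤ := by
          rw [eq_top_iff, ← hb, qspan, span_le]
          rintro _ ⟨i, rfl⟩; exact hall i
        rw [h2]
        have h3 : (1 : ℝ) ≤ K ^ (d + 1) := one_le_pow₀ hK
        nlinarith [covol_pos hL (⊤ : Submodule ℚ (Fin N → ℚ))]
      · push Not at hall
        obtain ⟨i, hi⟩ := hall
        have h1 := covol_adjoin hL W hi
        have hlt : finrank ℚ W < finrank ℚ (W ⊔ span ℚ {toQ (b i)} : Submodule ℚ (Fin N → ℚ)) := by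
          apply Submodule.finrank_lt_finrank_of_lt
          refine lt_of_le_of_ne le_sup_left ?_
          intro heq
          apply hi
          rw [heq]
          exact mem_sup_right (mem_span_singleton_self _)
        have h2 := ih (W ⊔ span ℚ {toQ (b i)}) (by omega)
        calc covol L ⊤ ≤ covol L (W ⊔ span ℚ {toQ (b i)}) * K ^ d := h2
          _ ≤ (covol L W * ‖L (toR (b i))‖) * K ^ d :=
              mul_le_mul_of_nonneg_right h1 (pow_nonneg (zero_le_one.trans hK) _)
          _ ≤ (covol L W * K) * K ^ d := by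
              apply mul_le_mul_of_nonneg_right _ (pow_nonneg (zero_le_one.trans hK) _)
              exact mul_le_mul_of_nonneg_left (hbK i) (covol_pos hL W).le
          _ = covol L W * K ^ (d + 1) := by ring
  exact main N W (Nat.sub_le _ _)

/-- lower bound for the covolume of the whole lattice by a determinant of coordinates -/
theorem le_covol_top {L : (Fin N → ℝ) →ₗ[ℝ] E} (hL : Function.Injective L)
    (L₀ : (Fin N → ℝ) →ₗ[ℝ] EuclideanSpace ℝ (Fin N)) (h : ∀ z, ‖L₀ z‖ ≤ ‖L z‖) :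
    |(Matrix.of fun i j : Fin N => L₀ (Pi.single i 1) j).det| ≤ covol L ⊤ := by
  have hQ : ∀ i : Fin N, toQ (Pi.single i 1 : Fin N → ℤ) = Pi.single i 1 := by
    intro i; ext k
    simp only [toQ, Pi.single_apply]
    split_ifs <;> simp
  have hR : ∀ i : Fin N, toR (Pi.single i 1 : Fin N → ℤ) = Pi.single i 1 := by
    intro i; ext k
    simp only [toR, Pi.single_apply]
    split_ifs <;> simp
  have hZ : IsZB (⊤ : Submodule ℚ (Fin N → ℚ)) (fun i : Fin N => (Pi.single i 1 : Fin N → ℤ)) := by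
    refine ⟨?_, ?_⟩
    · apply liZ_of_liQ
      simp only [hQ]
      have := (Pi.basisFun ℚ (Fin N)).linearIndependent
      convert this using 1
      funext i
      simp
    · apply le_antisymm
      · intro x _
        exact (Submodule.mem_top : toQ x ∈ (⊤ : Submodule ℚ (Fin N → ℚ)))
      · intro x _
        have hx : x = ∑ i, x i • (Pi.single i 1 : Fin N → ℤ) := by
          ext k
          simp [Finset.sum_apply, Pi.single_apply]
        rw [hx]
        exact Submodule.sum_mem _ (fun i _ => Submodule.smul_mem _ _ (subset_span ⟨i, rfl⟩))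
  rw [hZ.covol_eq L]
  have h1 := vol_le_pow_mul (fun i : Fin N => L₀ (toR (Pi.single i 1)))
    (fun i : Fin N => L (toR (Pi.single i 1))) zero_le_one
    (norm_comb (fun z => by rw [one_mul]; exact h z) _)
  rw [one_pow, one_mul] at h1
  refine le_trans (le_of_eq ?_) h1
  rw [vol_euclidean]
  simp only [hR]

end LAT

end

end Pool.Agent.Helper53.MF
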